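import Pool.Agent.H683.FF.Main

/-!
# Subexponential parameterized algorithms for Firefighter on trees

* Saving `k` vertices of a tree is solvable in time `2 ^ O(√k) * n ^ O(1)`: in an optimal strategy
  that protects vertices up to level `L`, the vertex protected in level `i` saves at least `L - i`
  vertices (otherwise protect an ancestor of the last protected vertex instead), so it suffices to
  protect vertices in the first `O(√k)` levels, and then dynamic programming over the preorder of
  the tree with the set of the used levels as state is fast enough.
* Saving all but `k` vertices and Maximum `k`-vertex protection are not solvable in time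
  `2 ^ o(k) * n ^ O(1)` on trees unless Clique is fixed-parameter tractable: Clique (with `g` clique
  vertices in a graph with `n` vertices) is reduced in polynomial time to instances on trees with
  parameter `k = O(g ^ 4 * log n)`.
-/

set_option autoImplicit false

namespace Pool.Agent.Results.MP_4a4383_lc.SubexponentialOnTrees

open Pool.Agent.NPC Pool.Agent.H633R2 Pool.Agent.H683.FF

/-- **Firefighter on trees.** Saving `k` vertices is solvable in time `2 ^ O(√k) * n ^ O(1)`. If
one of the other two problems is solvable in time `2 ^ f(k) * n ^ O(1)` with `f(k) = o(k)`, then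
Clique is solvable in time `h(k) * n ^ O(1)` for some function `h`; and if moreover `f(k) = o(k)`
effectively then `FPT = W[1]`. -/
theorem result :
    (∃ (c : ℕ) (p : Polynomial ℕ),
      DecTime (fun x : List (List Bool) × ℕ × ℕ => IsTreeWith x.1 x.2.1) SavingK
        (fun x => 2 ^ (c * Nat.sqrt x.2.2) * p.eval (bits x).length)) ∧
    ∀ (f : ℕ → ℕ) (p : Polynomial ℕ),
      (DecTime (fun x : List (List Bool) × ℕ × ℕ => IsTreeWith x.1 x.2.1) SavingAllBut
          (fun x => 2 ^ f x.2.2 * p.eval (bits x).length) ∨
        DecTime (fun x : List (List Bool) × ℕ × ℕ × ℕ => IsTreeWith x.1 x.2.1) MaxProtection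
          (fun x => 2 ^ f x.2.2.1 * p.eval (bits x).length)) →
      (LittleO f → CliqueUniformFpt) ∧
      (EffLittleO f →
        ∀ (α : Type) [TEnc α] (κ : α → ℕ) (P : α → Prop), InW1 κ P → IsFpt κ P) :=
  ⟨Pool.Agent.NPC.H683FF.saving_time, fun _ _ h => Pool.Agent.NPC.H683FF.lower h⟩

end Pool.Agent.Results.MP_4a4383_lc.SubexponentialOnTrees
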